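import Pool.Agent.H922DI.RadSum

/-!
# Dade's invariant conjecture: convolution formula for fibre products, a one-sided inequality suffices

Notation. `IsExt ι π`: the sequence `1 → G → E → A → 1` (maps `ι`, `π`) is exact; so `A` is the group
`Ē` of the problem. `p` is a prime and `red` a homomorphism from the ring of algebraic integers to a
field of characteristic `p`; the block of `χ ∈ Irr(G)` is the set of the characters with the same
central character modulo the kernel of `red`, and `bl(ψ)^G = bl(χ)` (`Pool.Agent.Q99.AS.Induces`) means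
that the central character of `ψ` has at the sum of the elements of `H` in a conjugacy class of `G` the
same value modulo the kernel as that of `χ` at the sum of the class.
`rEq red p ι π O U χ d` is `∑_C (-1)^|C| k_C(B, d, U)`, over representatives of the `G`-classes of the
radical chains `C = (O = P_0 < P_1 < ⋯ < P_n)` of `p`-subgroups of `G` (`P_k = O_p(N_G(C_k))` for
`k = 1, …, n`), where `B` is the block of `χ` and `k_C(B, d, U)` (`Pool.Agent.H922DI.kEq`) is the number of
the `ψ ∈ Irr(N_G(C))` of `p`-defect `d` with `bl(ψ)^G = B` and `N_A(C, ψ) = U`; `rGe` is the same with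
`N_A(C, ψ) ≥ U`. `sEq` and `sGe` are the sums over all chains of `p`-subgroups.

Outline of the proof. For two extensions `E`, `E'` of `G`, `G'` by the same group `A` the fibre product
`E ×_A E'` is an extension of `G × G'` by `A`. An alternating sum over chains of a function of the
stabilisers is determined by the reduced Euler characteristics of the posets of the `p`-subgroups of `G`
which are normalised by a subgroup `K` of `E`, and these are multiplicative for direct products. The
characters `θ ⊗ ψ` have inertial group `N_A(C, θ) ∩ N_A(C', ψ)`, so the sums `sGe` for the fibre product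
are the convolutions of those for the factors. Two sign reversing involutions (chains that are not
normal; normal chains that are not radical) show that the sums over the radical chains are the same.
-/

set_option autoImplicit false

namespace Pool.Agent.Results.MP_baa4d7_al.OneSidedInvariant

open Pool.Agent.Q99.AS Pool.Agent.Helper884.IC Pool.Agent.H922DI

variable {F : Type} [Field F]

/-- `Q` holds for all finite extensions `1 → G → E → A → 1` in the class `X` with `O_p(G) = 1` and all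
`χ ∈ Irr(G)` of positive `p`-defect (every block with nontrivial defect groups contains such
a character). -/
def All (p : ℕ)
    (X : ∀ (G E A : Type) [Group G] [Group E] [Group A] (_ : G →* E) (_ : E →* A), Prop)
    (Q : ∀ (G E A : Type) [Group G] [Group E] [Group A] (_ : G →* E) (_ : E →* A) (_ : G → ℂ),
      Prop) : Prop :=
  ∀ (G E A : Type) [Group G] [Group E] [Group A] [Finite G] [Finite E] [Finite A] (ι : G →* E)
    (π : E →* A) (χ : G → ℂ), IsExt ι π → X G E A ι π → IsCore p (⊥ : Subgroup G) →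
    IsIrrChar χ → Big p (⊥ : Subgroup G) χ → Q G E A ι π χ

theorem bot_map {G E : Type} [Group G] [Group E] (ι : G →* E) :
    ((⊥ : Subgroup G).map ι).Normal := by
  rw [Subgroup.map_bot]
  infer_instance

theorem sq {p : ℕ} [Fact p.Prime] (red : integralClosure ℤ ℂ →+* F) {G E A : Type} [Group G]
    [Group E] [Group A] [Finite G] [Finite E] {ι : G →* E} {π : E →* A} {χ : G → ℂ}
    (h : IsExt ι π) (hχ : IsIrrChar χ) (U : Subgroup A) (d : ℕ) :
    sGe red p (fibI h h) (fibP π π) ⊥ U (ten χ χ) d =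
      conv (sGe red p ι π ⊥ U χ) (sGe red p ι π ⊥ U χ) d := by
  rw [← sGe_fib red h h IsPGroup.of_bot IsPGroup.of_bot (bot_map ι) (bot_map ι) hχ hχ U d,
    Subgroup.bot_prod_bot]

/-- the same statement for the sums over all chains -/
theorem aux (p : ℕ) [Fact p.Prime] (F : Type) [Field F] [CharP F p]
    (red : integralClosure ℤ ℂ →+* F) :
    (∀ (G G' E E' A : Type) [Group G] [Group G'] [Group E] [Group E'] [Group A] [Finite G]
      [Finite G'] [Finite E] [Finite E'] (ι : G →* E) (π : E →* A) (ι' : G' →* E') (π' : E' →* A)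
      (h : IsExt ι π) (h' : IsExt ι' π') (O : Subgroup G) (O' : Subgroup G') (χ : G → ℂ)
      (χ' : G' → ℂ), IsPGroup p O → IsPGroup p O' → (O.map ι).Normal → (O'.map ι').Normal →
      IsIrrChar χ → IsIrrChar χ' → ∀ (U : Subgroup A) (d : ℕ),
        sGe red p (fibI h h') (fibP π π') (O.prod O') U (ten χ χ') d =
          ∑ i ∈ Finset.HasAntidiagonal.antidiagonal d,
            sGe red p ι π O U χ i.1 * sGe red p ι' π' O' U χ' i.2) ∧
    ∀ X : ∀ (G E A : Type) [Group G] [Group E] [Group A] (_ : G →* E) (_ : E →* A), Prop,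
      (∀ (G E A : Type) [Group G] [Group E] [Group A] (ι : G →* E) (π : E →* A) (h : IsExt ι π),
        X G E A ι π → X (G × G) (fib π π) A (fibI h h) (fibP π π)) →
      (All p X (fun _ _ A _ _ _ ι π χ => ∀ (U : Subgroup A) (d : ℕ), sEq red p ι π ⊥ U χ d = 0) ↔
        All p X (fun _ _ A _ _ _ ι π χ => ∀ (U : Subgroup A) (d : ℕ),
          (∀ e, e < d → sGe red p ι π ⊥ U χ e = 0) → sGe red p ι π ⊥ U χ d ≤ 0)) ∧
      ((∀ (G E A : Type) [Group G] [Group E] [Group A] (ι : G →* E) (π : E →* A) (h : IsExt ι π)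
        (U : Subgroup A), X G E A ι π → X G (U.comap π) U (subI h U) (subP π U)) →
        (All p X (fun _ _ A _ _ _ ι π χ => ∀ (U : Subgroup A) (d : ℕ), sEq red p ι π ⊥ U χ d = 0) ↔
          All p X (fun _ _ _ _ _ _ ι π χ => ∀ d : ℕ,
            (∀ e, e < d → sEq red p ι π ⊥ ⊤ χ e = 0) → sEq red p ι π ⊥ ⊤ χ d ≤ 0)) ∧
        (∀ t : ℝ, Transcendental ℤ t →
          (All p X (fun _ _ A _ _ _ ι π χ => ∀ (U : Subgroup A) (d : ℕ),
            sEq red p ι π ⊥ U χ d = 0) ↔
          All p X (fun _ _ _ _ _ _ ι π χ => ∑ᶠ d : ℕ, (sEq red p ι π ⊥ ⊤ χ d : ℝ) * t ^ d ≤ 0)))) := by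
  refine ⟨fun G G' E E' A _ _ _ _ _ _ _ _ _ ι π ι' π' h h' O O' χ χ' a b c d e f U k =>
    sGe_fib red h h' a b c d e f U k, fun X hX => ?_⟩
  -- all pairs `(|G|, (sGe U))`
  let P : ℕ → (ℕ → ℤ) → Prop := fun n s => ∃ (G E A : Type) (_ : Group G) (_ : Group E)
    (_ : Group A) (_ : Finite G) (_ : Finite E) (_ : Finite A) (ι : G →* E) (π : E →* A)
    (χ : G → ℂ) (U : Subgroup A), IsExt ι π ∧ X G E A ι π ∧ IsCore p (⊥ : Subgroup G) ∧
      IsIrrChar χ ∧ Big p (⊥ : Subgroup G) χ ∧ n = Nat.card G ∧ s = sGe red p ι π ⊥ U χ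
  let P' : ℕ → (ℕ → ℤ) → Prop := fun n s => ∃ (G E A : Type) (_ : Group G) (_ : Group E)
    (_ : Group A) (_ : Finite G) (_ : Finite E) (_ : Finite A) (ι : G →* E) (π : E →* A)
    (χ : G → ℂ), IsExt ι π ∧ X G E A ι π ∧ IsCore p (⊥ : Subgroup G) ∧
      IsIrrChar χ ∧ Big p (⊥ : Subgroup G) χ ∧ n = Nat.card G ∧ s = sEq red p ι π ⊥ ⊤ χ
  have core : ∀ {G : Type} [Group G] [Finite G], IsCore p (⊥ : Subgroup G) →
      IsCore p (⊥ : Subgroup (G × G)) := by
    intro G _ _ h
    have := h.prod h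
    rwa [Subgroup.bot_prod_bot] at this
  have big : ∀ {G : Type} [Group G] [Finite G] {χ : G → ℂ}, IsIrrChar χ →
      Big p (⊥ : Subgroup G) χ → Big p (⊥ : Subgroup (G × G)) (ten χ χ) := by
    intro G _ _ χ hχ h
    have := h.prod hχ hχ h
    rwa [Subgroup.bot_prod_bot] at this
  have irr : ∀ {G : Type} [Group G] [Finite G] {χ : G → ℂ}, IsIrrChar χ →
      IsIrrChar (ten χ χ) := by
    intro G _ _ χ hχ
    have := Fintype.ofFinite G
    exact ten_irr hχ hχ
  have hpos : ∀ n s, P n s → 1 ≤ n := by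
    rintro n s ⟨G, E, A, _, _, _, _, _, _, ι, π, χ, U, -, -, -, -, -, rfl, -⟩
    exact Nat.card_pos
  have hpos' : ∀ n s, P' n s → 1 ≤ n := by
    rintro n s ⟨G, E, A, _, _, _, _, _, _, ι, π, χ, -, -, -, -, -, rfl, -⟩
    exact Nat.card_pos
  have hsupp : ∀ n s, P n s → ∀ d, Nat.log 2 n < d → s d = 0 := by
    rintro n s ⟨G, E, A, _, _, _, _, _, _, ι, π, χ, U, -, -, -, -, -, rfl, rfl⟩ d hd
    exact sGe_supp red ι π ⊥ U χ hd (Fact.out : p.Prime)
  have hsupp' : ∀ n s, P' n s → ∀ d, Nat.log 2 n < d → s d = 0 := by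
    rintro n s ⟨G, E, A, _, _, _, _, _, _, ι, π, χ, -, -, -, -, -, rfl, rfl⟩ d hd
    rw [sEq_top]
    exact sGe_supp red ι π ⊥ ⊤ χ hd (Fact.out : p.Prime)
  have hsq : ∀ n s, P n s → P (n * n) (conv s s) := by
    rintro n s ⟨G, E, A, _, _, _, _, _, _, ι, π, χ, U, h1, h2, h3, h4, h5, rfl, rfl⟩
    refine ⟨G × G, fib π π, A, inferInstance, inferInstance, inferInstance, inferInstance,
      inferInstance, inferInstance, fibI h1 h1, fibP π π, ten χ χ, U, fib_ext h1 h1,
      hX G E A ι π h1 h2, core h3, irr h4, big h4 h5, (Nat.card_prod G G).symm, ?_⟩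
    funext d
    exact (sq red h1 h4 U d).symm
  have hsq' : ∀ n s, P' n s → P' (n * n) (conv s s) := by
    rintro n s ⟨G, E, A, _, _, _, _, _, _, ι, π, χ, h1, h2, h3, h4, h5, rfl, rfl⟩
    refine ⟨G × G, fib π π, A, inferInstance, inferInstance, inferInstance, inferInstance,
      inferInstance, inferInstance, fibI h1 h1, fibP π π, ten χ χ, fib_ext h1 h1,
      hX G E A ι π h1 h2, core h3, irr h4, big h4 h5, (Nat.card_prod G G).symm, ?_⟩
    have e : sEq red p ι π ⊥ ⊤ χ = sGe red p ι π ⊥ ⊤ χ := funext fun d => sEq_top red p ⊥ χ d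
    funext d
    rw [sEq_top, e]
    exact (sq red h1 h4 ⊤ d).symm
  have hP : ∀ Q : (ℕ → ℤ) → Prop,
      (∀ n s, P n s → Q s) ↔ All p X (fun _ _ A _ _ _ ι π χ => ∀ U : Subgroup A,
        Q (sGe red p ι π ⊥ U χ)) := by
    intro Q
    constructor
    · intro h G E A _ _ _ _ _ _ ι π χ h1 h2 h3 h4 h5 U
      exact h _ _ ⟨G, E, A, _, _, _, inferInstance, inferInstance, inferInstance, ι, π, χ, U,
        h1, h2, h3, h4, h5, rfl, rfl⟩
    · rintro h n s ⟨G, E, A, _, _, _, _, _, _, ι, π, χ, U, h1, h2, h3, h4, h5, rfl, rfl⟩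
      exact h G E A ι π χ h1 h2 h3 h4 h5 U
  have hP' : ∀ Q : (ℕ → ℤ) → Prop,
      (∀ n s, P' n s → Q s) ↔ All p X (fun _ _ A _ _ _ ι π χ => Q (sEq red p ι π ⊥ ⊤ χ)) := by
    intro Q
    constructor
    · intro h G E A _ _ _ _ _ _ ι π χ h1 h2 h3 h4 h5
      exact h _ _ ⟨G, E, A, _, _, _, inferInstance, inferInstance, inferInstance, ι, π, χ,
        h1, h2, h3, h4, h5, rfl, rfl⟩
    · rintro h n s ⟨G, E, A, _, _, _, _, _, _, ι, π, χ, h1, h2, h3, h4, h5, rfl, rfl⟩
      exact h G E A ι π χ h1 h2 h3 h4 h5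
  have hall : All p X (fun _ _ A _ _ _ ι π χ => ∀ (U : Subgroup A) (d : ℕ),
      sEq red p ι π ⊥ U χ d = 0) ↔ ∀ n s, P n s → ∀ d, s d = 0 := by
    rw [hP fun s => ∀ d, s d = 0]
    constructor
    · intro h G E A _ _ _ _ _ _ ι π χ h1 h2 h3 h4 h5 U d
      exact (all_iff red p h1 ⊥ χ d).1 (fun W => h G E A ι π χ h1 h2 h3 h4 h5 W d) U
    · intro h G E A _ _ _ _ _ _ ι π χ h1 h2 h3 h4 h5 U d
      exact (all_iff red p h1 ⊥ χ d).2 (fun W => h G E A ι π χ h1 h2 h3 h4 h5 W d) U
  refine ⟨?_, fun hS => ?_⟩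
  · rw [hall, (dichotomy hpos hsupp hsq).1,
      hP fun s => ∀ d, (∀ e, e < d → s e = 0) → s d ≤ 0]
  · have hall' : All p X (fun _ _ A _ _ _ ι π χ => ∀ (U : Subgroup A) (d : ℕ),
        sEq red p ι π ⊥ U χ d = 0) ↔ ∀ n s, P' n s → ∀ d, s d = 0 := by
      rw [hP' fun s => ∀ d, s d = 0]
      constructor
      · intro h G E A _ _ _ _ _ _ ι π χ h1 h2 h3 h4 h5 d
        exact h G E A ι π χ h1 h2 h3 h4 h5 ⊤ d
      · intro h G E A _ _ _ _ _ _ ι π χ h1 h2 h3 h4 h5 U d
        refine (all_iff red p h1 ⊥ χ d).2 (fun W => ?_) U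
        rw [← sGe_sub red p h1 ⊥ W χ d]
        exact h G (W.comap π) W (subI h1 W) (subP π W) χ (sub_ext h1 W) (hS G E A ι π h1 W h2)
          h3 h4 h5 d
    refine ⟨?_, fun t ht => ?_⟩
    · rw [hall', (dichotomy hpos' hsupp' hsq').1,
        hP' fun s => ∀ d, (∀ e, e < d → s e = 0) → s d ≤ 0]
    · rw [hall', real_ineq hsupp' hsq' t ht,
        hP' fun s => ∑ᶠ d : ℕ, (s d : ℝ) * t ^ d ≤ 0]

/-- **Dade's invariant conjecture.** Let `p` be a prime and `red` the reduction of the algebraic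
integers modulo a maximal ideal that contains `p`.
(1) Let `E`, `E'` be extensions of the finite groups `G`, `G'` by `A`, `U ≤ A`, and `O`, `O'` `p`-subgroups
of `G`, `G'`, normal in `E`, `E'`. The alternating sums of the numbers of characters with `N_A(C, ψ) ≥ U`
for the extension `E ×_A E'` of `G × G'` by `A` and the block `B ⊗ B'` are the convolution of those for
`B` and `B'`.
Let `X` be a class of extensions `1 → G → E → A → 1` closed under fibre squares
`1 → G × G → E ×_A E → A → 1` (for example all extensions, or all extensions by a given group `A`).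
(2) The conjecture holds for the extensions in `X` if and only if for them, all blocks `B` (with
nontrivial defect groups) and all `U ≤ A`, in the sequence of the alternating sums of the numbers of
characters of defect `d = 0, 1, 2, …` with `N_A(C, ψ) ≥ U` the first nonzero member is negative.
(3) If `X` is also closed under `(G, E, A) ↦ (G, E_U, U)`, where `U ≤ A` and `E_U` is the preimage
of `U`, then the conjecture holds for `X` if and only if in the sequences of the sums
`∑_C (-1)^|C| k_C(B, d, A)`, `d = 0, 1, 2, …`, the first nonzero member is negative; and, for a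
transcendental real number `t`, if and only if `∑_d t^d ∑_C (-1)^|C| k_C(B, d, A) ≤ 0`. -/
theorem result (p : ℕ) [Fact p.Prime] (F : Type) [Field F] [CharP F p]
    (red : integralClosure ℤ ℂ →+* F) :
    (∀ (G G' E E' A : Type) [Group G] [Group G'] [Group E] [Group E'] [Group A] [Finite G]
      [Finite G'] [Finite E] [Finite E'] (ι : G →* E) (π : E →* A) (ι' : G' →* E') (π' : E' →* A)
      (h : IsExt ι π) (h' : IsExt ι' π') (O : Subgroup G) (O' : Subgroup G') (χ : G → ℂ)
      (χ' : G' → ℂ), IsPGroup p O → IsPGroup p O' → (O.map ι).Normal → (O'.map ι').Normal →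
      IsIrrChar χ → IsIrrChar χ' → ∀ (U : Subgroup A) (d : ℕ),
        rGe red p (fibI h h') (fibP π π') (O.prod O') U (ten χ χ') d =
          ∑ i ∈ Finset.HasAntidiagonal.antidiagonal d,
            rGe red p ι π O U χ i.1 * rGe red p ι' π' O' U χ' i.2) ∧
    ∀ X : ∀ (G E A : Type) [Group G] [Group E] [Group A] (_ : G →* E) (_ : E →* A), Prop,
      (∀ (G E A : Type) [Group G] [Group E] [Group A] (ι : G →* E) (π : E →* A) (h : IsExt ι π),
        X G E A ι π → X (G × G) (fib π π) A (fibI h h) (fibP π π)) →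
      (All p X (fun _ _ A _ _ _ ι π χ => ∀ (U : Subgroup A) (d : ℕ), rEq red p ι π ⊥ U χ d = 0) ↔
        All p X (fun _ _ A _ _ _ ι π χ => ∀ (U : Subgroup A) (d : ℕ),
          (∀ e, e < d → rGe red p ι π ⊥ U χ e = 0) → rGe red p ι π ⊥ U χ d ≤ 0)) ∧
      ((∀ (G E A : Type) [Group G] [Group E] [Group A] (ι : G →* E) (π : E →* A) (h : IsExt ι π)
        (U : Subgroup A), X G E A ι π → X G (U.comap π) U (subI h U) (subP π U)) →
        (All p X (fun _ _ A _ _ _ ι π χ => ∀ (U : Subgroup A) (d : ℕ), rEq red p ι π ⊥ U χ d = 0) ↔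
          All p X (fun _ _ _ _ _ _ ι π χ => ∀ d : ℕ,
            (∀ e, e < d → rEq red p ι π ⊥ ⊤ χ e = 0) → rEq red p ι π ⊥ ⊤ χ d ≤ 0)) ∧
        (∀ t : ℝ, Transcendental ℤ t →
          (All p X (fun _ _ A _ _ _ ι π χ => ∀ (U : Subgroup A) (d : ℕ),
            rEq red p ι π ⊥ U χ d = 0) ↔
          All p X (fun _ _ _ _ _ _ ι π χ => ∑ᶠ d : ℕ, (rEq red p ι π ⊥ ⊤ χ d : ℝ) * t ^ d ≤ 0)))) := by
  have norm : ∀ {G E : Type} [Group G] [Group E] {ι : G →* E} {O : Subgroup G},
      Function.Injective ι → (O.map ι).Normal → O.Normal := by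
    intro G E _ _ ι O hi h
    have := Subgroup.Normal.comap h ι
    rwa [Subgroup.comap_map_eq_self_of_injective hi] at this
  obtain ⟨h1, h2⟩ := aux p F red
  refine ⟨fun G G' E E' A _ _ _ _ _ _ _ _ _ ι π ι' π' h h' O O' χ χ' a b c d e f U k => ?_,
    fun X hX => ?_⟩
  · have n := norm h.inj c
    have n' := norm h'.inj d
    rw [rGe_eq red (fib_ext h h') (Subgroup.prod_normal O O'),
      h1 G G' E E' A ι π ι' π' h h' O O' χ χ' a b c d e f U k]
    refine Finset.sum_congr rfl fun i _ => ?_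
    rw [rGe_eq red h n, rGe_eq red h' n']
  · have hc : ∀ Q Q' : ∀ (G E A : Type) [Group G] [Group E] [Group A] (_ : G →* E) (_ : E →* A)
        (_ : G → ℂ), Prop,
        (∀ (G E A : Type) [Group G] [Group E] [Group A] [Finite G] (ι : G →* E) (π : E →* A)
          (χ : G → ℂ), IsExt ι π → (Q G E A ι π χ ↔ Q' G E A ι π χ)) →
        (All p X Q ↔ All p X Q') := by
      intro Q Q' hQ
      constructor
      · intro h G E A _ _ _ _ _ _ ι π χ a b c d e
        exact (hQ G E A ι π χ a).1 (h G E A ι π χ a b c d e)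
      · intro h G E A _ _ _ _ _ _ ι π χ a b c d e
        exact (hQ G E A ι π χ a).2 (h G E A ι π χ a b c d e)
    have nb : ∀ {G : Type} [Group G], (⊥ : Subgroup G).Normal := fun {G} _ => ⟨fun n hn g => by
      rw [Subgroup.mem_bot] at hn ⊢
      rw [hn, mul_one, mul_inv_cancel]⟩
    obtain ⟨h3, h4⟩ := h2 X hX
    have e1 : All p X (fun _ _ A _ _ _ ι π χ => ∀ (U : Subgroup A) (d : ℕ),
        rEq red p ι π ⊥ U χ d = 0) ↔ All p X (fun _ _ A _ _ _ ι π χ =>
        ∀ (U : Subgroup A) (d : ℕ), sEq red p ι π ⊥ U χ d = 0) := by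
      refine hc _ _ fun G E A _ _ _ _ ι π χ h => ?_
      exact forall_congr' fun U => forall_congr' fun d => by rw [rEq_eq red h nb]
    refine ⟨?_, fun hS => ?_⟩
    · rw [e1, h3]
      refine hc _ _ fun G E A _ _ _ _ ι π χ h => ?_
      refine forall_congr' fun U => forall_congr' fun d => ?_
      rw [rGe_eq red h nb]
      exact imp_congr (forall_congr' fun e => imp_congr Iff.rfl (by rw [rGe_eq red h nb])) Iff.rfl
    · obtain ⟨h5, h6⟩ := h4 hS
      refine ⟨?_, fun t ht => ?_⟩
      · rw [e1, h5]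
        refine hc _ _ fun G E A _ _ _ _ ι π χ h => ?_
        refine forall_congr' fun d => ?_
        rw [rEq_eq red h nb]
        exact imp_congr (forall_congr' fun e => imp_congr Iff.rfl (by rw [rEq_eq red h nb])) Iff.rfl
      · rw [e1, h6 t ht]
        refine hc _ _ fun G E A _ _ _ _ ι π χ h => ?_
        have e2 : (fun d : ℕ => (rEq red p ι π ⊥ ⊤ χ d : ℝ) * t ^ d) =
            fun d : ℕ => (sEq red p ι π ⊥ ⊤ χ d : ℝ) * t ^ d := by
          funext d
          rw [rEq_eq red h nb]
        rw [e2]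

end Pool.Agent.Results.MP_baa4d7_al.OneSidedInvariant
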